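import Pool.Agent.Lib.FW.SpecR4

/-!
# FW, R4B: prime numbers modulo which N has order a power of p
-/

namespace Pool.Agent.FW

theorem tR4B : S_R4B := by
  intro p hp hp2 N k₀ C hN
  have hpp : p.Prime := hp.out
  have hodd : Odd p := hpp.odd_of_ne_two hp2
  have hp3 : 3 ≤ p := by
    have h2 := hpp.two_le
    omega
  set j := k₀ + C with hj
  set a := N ^ p ^ j with ha
  have ha2 : 2 ≤ a := by
    calc 2 ≤ N := hN
      _ = N ^ 1 := (pow_one N).symm
      _ ≤ N ^ p ^ j := Nat.pow_le_pow_right (by omega) (Nat.one_le_pow _ _ hpp.pos)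
  set Q := ∑ i ∈ Finset.range p, a ^ i with hQ
  have hgeom : Q * (a - 1) = a ^ p - 1 := by
    have h := Nat.geomSum_eq ha2 p
    have h1 : Q = (a ^ p - 1) / (a - 1) := h
    have hd : (a - 1) ∣ a ^ p - 1 := by
      have h2 := Nat.sub_dvd_pow_sub_pow a 1 p
      rwa [one_pow] at h2
    rw [h1, Nat.div_mul_cancel hd]
  have hQp : p < Q := by
    have h1 : ∑ i ∈ Finset.range p, 1 < ∑ i ∈ Finset.range p, a ^ i := by
      apply Finset.sum_lt_sum
      · intro i _
        exact Nat.one_le_pow _ _ (by omega)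
      · refine ⟨1, Finset.mem_range.mpr (by omega), ?_⟩
        rw [pow_one]
        omega
    simpa using h1
  have ha1 : 1 ≤ a ^ p := Nat.one_le_pow _ _ (by omega)
  -- a prime divisor different from p
  have hex : ∃ r : ℕ, r.Prime ∧ r ∣ Q ∧ r ≠ p := by
    by_contra hcon
    push Not at hcon
    have hall : ∀ {d : ℕ}, d.Prime → d ∣ Q → d = p := fun {d} hd hdv => hcon d hd hdv
    have hpow := Nat.eq_prime_pow_of_unique_prime_dvd (by omega : Q ≠ 0) hall
    set s := Q.primeFactorsList.length with hs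
    have hs0 : s ≠ 0 := by
      intro h0
      rw [h0, pow_zero] at hpow
      omega
    have hpQ : p ∣ Q := by
      rw [hpow]
      exact dvd_pow_self p hs0
    have hpa : p ∣ a ^ p - 1 := by
      rw [← hgeom]
      exact Dvd.dvd.mul_right hpQ _
    have hz : (a : ZMod p) = 1 := by
      have h1 : ((a ^ p - 1 : ℕ) : ZMod p) = 0 := (ZMod.natCast_eq_zero_iff _ _).mpr hpa
      rw [Nat.cast_sub ha1, Nat.cast_pow, ZMod.pow_card, Nat.cast_one] at h1
      exact sub_eq_zero.mp h1
    have hpa1 : p ∣ a - 1 := by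
      rw [← ZMod.natCast_eq_zero_iff, Nat.cast_sub (by omega), hz]
      simp
    have hpna : ¬ p ∣ a := by
      intro h
      rw [← ZMod.natCast_eq_zero_iff, hz] at h
      exact one_ne_zero h
    have hlte := padicValNat.pow_sub_pow hodd (by omega : 1 < a) hpa1 hpna hpp.ne_zero
    rw [one_pow, padicValNat_self, ← hgeom,
      padicValNat.mul (by omega : Q ≠ 0) (by omega : a - 1 ≠ 0)] at hlte
    have hv : padicValNat p Q = s := by
      conv_lhs => rw [hpow]
      exact padicValNat.prime_pow s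
    rw [hv] at hlte
    have hs1 : s = 1 := by omega
    rw [hs1, pow_one] at hpow
    omega
  obtain ⟨r, hr, hrQ, hrp⟩ := hex
  have : Fact r.Prime := ⟨hr⟩
  have hra : r ∣ a ^ p - 1 := by
    rw [← hgeom]
    exact Dvd.dvd.mul_right hrQ _
  have hone : (N : ZMod r) ^ p ^ (j + 1) = 1 := by
    have h1 : ((a ^ p - 1 : ℕ) : ZMod r) = 0 := (ZMod.natCast_eq_zero_iff _ _).mpr hra
    rw [Nat.cast_sub ha1, Nat.cast_one, sub_eq_zero, ha, ← pow_mul, ← pow_succ, Nat.cast_pow] at h1
    exact h1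
  have hne : ¬ (N : ZMod r) ^ p ^ j = 1 := by
    intro h
    have h1 : (a : ZMod r) = 1 := by
      rw [ha, Nat.cast_pow]
      exact h
    have h2 : (Q : ZMod r) = p := by
      rw [hQ, Nat.cast_sum]
      simp [h1]
    have h3 : (Q : ZMod r) = 0 := (ZMod.natCast_eq_zero_iff _ _).mpr hrQ
    rw [h3] at h2
    have h4 : r ∣ p := (ZMod.natCast_eq_zero_iff _ _).mp h2.symm
    rcases (Nat.dvd_prime hpp).mp h4 with h5 | h5
    · exact hr.one_lt.ne' h5
    · exact hrp h5
  have hord : orderOf (N : ZMod r) = p ^ (j + 1) := orderOf_eq_prime_pow hne hone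
  have hNr : (N : ZMod r) ≠ 0 := by
    intro h
    rw [h, zero_pow (pow_ne_zero _ hpp.ne_zero)] at hone
    exact zero_ne_one hone
  refine ⟨r, j + 1, hr, ?_, by omega, ?_, hord⟩
  · have h1 : p ^ (j + 1) ∣ r - 1 := by
      rw [← hord]
      exact ZMod.orderOf_dvd_card_sub_one hNr
    have h2 : p ^ (j + 1) ≤ r - 1 := Nat.le_of_dvd (by have := hr.two_le; omega) h1
    have h3 : j + 1 < p ^ (j + 1) := Nat.lt_pow_self hpp.one_lt
    omega
  · intro h
    exact hNr ((ZMod.natCast_eq_zero_iff _ _).mpr h)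

end Pool.Agent.FW
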