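import Pool.Agent.Lib.FW.SpecR4

/-!
# FW, part R4: the choice of `m` and `t`
-/

open scoped Pointwise nonZeroDivisors

noncomputable section

namespace Pool.Agent.FW

open Pool.Agent.MuZ NumberField IsDedekindDomain

theorem tR4D : S_R4D := by
  intro hB p _ hp N C hN
  obtain ⟨r₁, k₁, hr₁, hC₁, hk₁, hN₁, ho₁⟩ := hB p hp N 0 C hN
  obtain ⟨r₂, k₂, hr₂, hC₂, hk₂, hN₂, ho₂⟩ := hB p hp N k₁ (max C r₁) hN
  have hlt1 : C < r₂ := (le_max_left C r₁).trans_lt hC₂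
  have hlt2 : r₁ < r₂ := (le_max_right C r₁).trans_lt hC₂
  have hcop : Nat.Coprime r₁ r₂ := (Nat.coprime_primes hr₁ hr₂).2 hlt2.ne
  have hp0 : 0 < p := (Fact.out : p.Prime).pos
  have hNm : Nat.Coprime N (r₁ * r₂) := by
    rw [Nat.coprime_mul_iff_right]
    exact ⟨((Nat.Prime.coprime_iff_not_dvd hr₁).2 hN₁).symm,
      ((Nat.Prime.coprime_iff_not_dvd hr₂).2 hN₂).symm⟩
  refine ⟨r₁ * r₂, Nat.mul_pos hr₁.pos hr₂.pos, ?_, ?_⟩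
  · intro q hq hdvd
    rcases (Nat.Prime.dvd_mul hq).1 hdvd with h | h
    · rwa [(Nat.prime_dvd_prime_iff_eq hq hr₁).1 h]
    · rwa [(Nat.prime_dvd_prime_iff_eq hq hr₂).1 h]
  let e : ZMod (r₁ * r₂) ≃+* ZMod r₁ × ZMod r₂ := ZMod.chineseRemainder hcop
  let f₁ : ZMod (r₁ * r₂) →+* ZMod r₁ := (RingHom.fst (ZMod r₁) (ZMod r₂)).comp e.toRingHom
  let f₂ : ZMod (r₁ * r₂) →+* ZMod r₂ := (RingHom.snd (ZMod r₁) (ZMod r₂)).comp e.toRingHom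
  let φ₁ : (ZMod (r₁ * r₂))ˣ →* (ZMod r₁)ˣ := Units.map (f₁ : ZMod (r₁ * r₂) →* ZMod r₁)
  let φ₂ : (ZMod (r₁ * r₂))ˣ →* (ZMod r₂)ˣ := Units.map (f₂ : ZMod (r₁ * r₂) →* ZMod r₂)
  let u : (ZMod (r₁ * r₂))ˣ := ZMod.unitOfCoprime N hNm
  have hu : (u : ZMod (r₁ * r₂)) = N := ZMod.coe_unitOfCoprime N hNm
  have hu₁ : orderOf (φ₁ u) = p ^ k₁ := by
    rw [← orderOf_units, ← ho₁]
    congr 1
    change f₁ (u : ZMod (r₁ * r₂)) = N
    rw [hu, map_natCast]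
  have hu₂ : orderOf (φ₂ u) = p ^ k₂ := by
    rw [← orderOf_units, ← ho₂]
    congr 1
    change f₂ (u : ZMod (r₁ * r₂)) = N
    rw [hu, map_natCast]
  obtain ⟨t, ht₁, ht₂⟩ : ∃ t : (ZMod (r₁ * r₂))ˣ, φ₁ t = φ₁ u ^ p ^ (k₁ - 1) ∧ φ₂ t = 1 := by
    refine ⟨(Units.mapEquiv (e : ZMod (r₁ * r₂) ≃* ZMod r₁ × ZMod r₂)).symm
      (MulEquiv.prodUnits.symm (φ₁ u ^ p ^ (k₁ - 1), 1)), ?_, ?_⟩
    · ext
      change (e (e.symm _)).1 = _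
      rw [RingEquiv.apply_symm_apply]
      rfl
    · ext
      change (e (e.symm _)).2 = _
      rw [RingEquiv.apply_symm_apply]
      rfl
  refine ⟨t, u, hu, fun i j hij => ?_⟩
  have h2 := congrArg φ₂ hij
  rw [map_mul, map_zpow, map_zpow, ht₂, one_zpow, one_mul, map_one,
    ← orderOf_dvd_iff_zpow_eq_one, hu₂] at h2
  have h1 := congrArg φ₁ hij
  have hk12 : ((p ^ k₁ : ℕ) : ℤ) ∣ j :=
    (Int.natCast_dvd_natCast.2 (pow_dvd_pow p hk₂.le)).trans h2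
  have h3 : (φ₁ u) ^ j = 1 := by
    rw [← orderOf_dvd_iff_zpow_eq_one, hu₁]
    exact hk12
  rw [map_mul, map_zpow, map_zpow, h3, mul_one, map_one, ht₁, ← zpow_natCast, ← zpow_mul,
    ← orderOf_dvd_iff_zpow_eq_one, hu₁] at h1
  have hpk : p ^ k₁ = p ^ (k₁ - 1) * p := by
    rw [← pow_succ]
    congr 1
    omega
  constructor
  · rw [hpk] at h1
    push_cast at h1
    exact Int.dvd_of_mul_dvd_mul_left (by positivity) h1
  · have h4 : (p : ℤ) ∣ ((p ^ k₁ : ℕ) : ℤ) := by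
      rw [hpk]
      push_cast
      exact dvd_mul_left _ _
    exact h4.trans hk12

end Pool.Agent.FW
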