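import Pool.Agent.Lib.FW.SpecR4

/-!
# FW, part R4: crossing, assembly
-/

open scoped Pointwise nonZeroDivisors

noncomputable section

namespace Pool.Agent.FW

open Pool.Agent.MuZ NumberField IsDedekindDomain

namespace R4EAux

private theorem cop {m X C : ℕ} (hX : 0 < X) (hXC : X ≤ C)
    (h : ∀ q : ℕ, q.Prime → q ∣ m → C < q) : m.Coprime X := by
  by_contra hc
  obtain ⟨q, hq, hqm, hqX⟩ := Nat.Prime.not_coprime_iff_dvd.1 hc
  have h1 := h q hq hqm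
  have h2 := Nat.le_of_dvd hX hqX
  omega

/-- The action on the roots of unity. -/
private theorem chi {m : ℕ} [NeZero m] {ζ : Om} (hζ : IsPrimitiveRoot ζ m) (σ : Gal(Om/ℚ)) (k : ℕ)
    (h : ∀ z : Om, z ^ m = 1 → σ z = z ^ k) : ((hζ.autToPow ℚ σ : (ZMod m)ˣ) : ZMod m) = k := by
  have h1 := hζ.autToPow_spec ℚ σ
  have h2 := h ζ hζ.pow_eq_one
  rw [h2] at h1
  rw [pow_eq_pow_mod k hζ.pow_eq_one] at h1
  have h3 := hζ.pow_inj (ZMod.val_lt _) (Nat.mod_lt _ (Nat.pos_of_ne_zero (NeZero.ne m))) h1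
  have h4 := congrArg (fun n : ℕ => (n : ZMod m)) h3
  rw [ZMod.natCast_zmod_val, ZMod.natCast_mod] at h4
  exact h4

private theorem norm_ge {K : IntermediateField ℚ Om} {P : Ideal ZZ} (hP : P.IsPrime)
    {σ : Gal(Om/ℚ)} (h : IsFr K P σ) : 2 ≤ Nat.card (𝓞 K ⧸ P.comap (iO K)) := by
  have h0 : Nat.card (𝓞 K ⧸ P.comap (iO K)) ≠ 0 := by
    intro h0
    have h1 := h.2 0
    rw [h0, pow_zero, smul_zero, zero_sub] at h1
    exact hP.ne_top ((Ideal.eq_top_iff_one P).2 (by simpa using P.neg_mem h1))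
  have h1 : Nat.card (𝓞 K ⧸ P.comap (iO K)) ≠ 1 := by
    intro h1
    have h2 := (Nat.card_eq_one_iff_unique.1 h1).1
    have h3 := Ideal.Quotient.subsingleton_iff.1 h2
    have h4 : (1 : 𝓞 K) ∈ P.comap (iO K) := by rw [h3]; exact Submodule.mem_top
    rw [Ideal.mem_comap, map_one] at h4
    exact hP.ne_top ((Ideal.eq_top_iff_one P).2 h4)
  omega

private theorem norm_mem {K : IntermediateField ℚ Om} {P : Ideal ZZ} :
    ((Nat.card (𝓞 K ⧸ P.comap (iO K)) : ℕ) : ZZ) ∈ P := by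
  have h1 : ((Nat.card (𝓞 K ⧸ P.comap (iO K)) : ℕ) : 𝓞 K ⧸ P.comap (iO K)) = 0 := by
    have h2 := card_nsmul_eq_zero' (x := (1 : 𝓞 K ⧸ P.comap (iO K)))
    rwa [nsmul_one] at h2
  have h2 : ((Nat.card (𝓞 K ⧸ P.comap (iO K)) : ℕ) : 𝓞 K) ∈ P.comap (iO K) := by
    rw [← Ideal.Quotient.eq_zero_iff_mem, map_natCast]
    exact h1
  rw [Ideal.mem_comap, map_natCast] at h2
  exact h2

private theorem notMem_of {P : Ideal ZZ} (hP : P.IsPrime) {m N : ℕ} (hN : (N : ZZ) ∈ P)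
    (hc : m.Coprime N) : (m : ZZ) ∉ P := by
  intro hm
  have h1 := Nat.gcd_eq_gcd_ab m N
  rw [hc.gcd_eq_one] at h1
  have h2 : (1 : ZZ) = (m : ZZ) * (Nat.gcdA m N : ℤ) + (N : ZZ) * (Nat.gcdB m N : ℤ) := by
    have h3 := congrArg (fun z : ℤ => (z : ZZ)) h1
    push_cast at h3
    exact h3
  refine hP.ne_top ((Ideal.eq_top_iff_one P).2 ?_)
  rw [h2]
  exact P.add_mem (P.mul_mem_right _ hm) (P.mul_mem_right _ hN)

/-- The group `H`. -/
private def HH {p m : ℕ} (W : Subgroup Gal(Om/ℚ)) (g : Gal(Om/ℚ) → ZMod p)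
    (hg : ∀ a ∈ W, ∀ b ∈ W, g (a * b) = g a + g b) (χ : Gal(Om/ℚ) →* (ZMod m)ˣ)
    (D : Subgroup (Multiplicative (ZMod p) × (ZMod m)ˣ)) : Subgroup Gal(Om/ℚ) where
  carrier := {σ | σ ∈ W ∧ (Multiplicative.ofAdd (g σ), χ σ) ∈ D}
  mul_mem' := by
    rintro a b ⟨ha, ha'⟩ ⟨hb, hb'⟩
    refine ⟨W.mul_mem ha hb, ?_⟩
    rw [hg a ha b hb, map_mul, ofAdd_add]
    exact D.mul_mem ha' hb'
  one_mem' := by
    refine ⟨W.one_mem, ?_⟩
    have h1 := hg 1 W.one_mem 1 W.one_mem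
    rw [mul_one] at h1
    rw [left_eq_add.1 h1, map_one, ofAdd_zero]
    exact D.one_mem
  inv_mem' := by
    rintro a ⟨ha, ha'⟩
    refine ⟨W.inv_mem ha, ?_⟩
    have h1 := hg 1 W.one_mem 1 W.one_mem
    rw [mul_one] at h1
    have h2 := hg a⁻¹ (W.inv_mem ha) a ha
    rw [inv_mul_cancel, left_eq_add.1 h1] at h2
    rw [eq_neg_of_add_eq_zero_left h2.symm, map_inv, ofAdd_neg]
    exact D.inv_mem ha'

end R4EAux

open R4EAux

theorem tR4E : S_R4E := by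
  intro hFrE hFrM hA hD p _ hp2 K _ g hg hg0
  obtain ⟨B, hB0, hB⟩ := hA p K g hg hg0
  refine ⟨B, hB0, hB, ?_⟩
  intro P hP hP0 M hM
  obtain ⟨σ₀, hσ₀⟩ := hFrE K P hP hP0
  have hN2 := norm_ge hP hσ₀
  have hNP : ((Nat.card (𝓞 K ⧸ P.comap (iO K)) : ℕ) : ZZ) ∈ P := norm_mem
  obtain ⟨m, hm0, hmq, t, u, hu, htu⟩ := hD p hp2 (Nat.card (𝓞 K ⧸ P.comap (iO K)))
    (max B (max M (Nat.card (𝓞 K ⧸ P.comap (iO K))))) hN2
  have hmB : m.Coprime B := cop hB0 (le_max_left _ _) hmq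
  have hmM : m.Coprime M := cop hM (le_trans (le_max_left _ _) (le_max_right _ _)) hmq
  have hmN : m.Coprime (Nat.card (𝓞 K ⧸ P.comap (iO K))) :=
    cop (by omega) (le_trans (le_max_right _ _) (le_max_right _ _)) hmq
  have hmP : (m : ZZ) ∉ P := notMem_of hP hNP hmN
  have : NeZero m := ⟨hm0.ne'⟩
  have : NeZero (m : Om) := ⟨Nat.cast_ne_zero.2 hm0.ne'⟩
  obtain ⟨ζ, hζ⟩ := HasEnoughRootsOfUnity.exists_primitiveRoot Om m
  let Γ := Subgroup.closure {((Multiplicative.ofAdd (1 : ZMod p), t) :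
    Multiplicative (ZMod p) × (ZMod m)ˣ), (Multiplicative.ofAdd (g σ₀), u)}
  let H := HH K.fixingSubgroup g hg.2.1 (hζ.autToPow ℚ) Γ
  have hHmem : ∀ σ : Gal(Om/ℚ), σ ∈ H ↔ σ ∈ K.fixingSubgroup ∧
    ((Multiplicative.ofAdd (g σ), hζ.autToPow ℚ σ) : Multiplicative (ZMod p) × (ZMod m)ˣ) ∈ Γ :=
    fun σ => Iff.rfl
  have hHo : IsOpen (H : Set Gal(Om/ℚ)) := by
    obtain ⟨O, hO⟩ := hg.2.2.1
    have h1 : IsOpen (K.fixingSubgroup : Set Gal(Om/ℚ)) :=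
      IntermediateField.fixingSubgroup_isOpen K
    have h2 : IsOpen (MulAction.stabilizer Gal(Om/ℚ) ζ : Set Gal(Om/ℚ)) :=
      stabilizer_isOpen_of_isIntegral (K := ℚ) ζ
    refine Subgroup.isOpen_mono
      (H₁ := K.fixingSubgroup ⊓ (O : Subgroup Gal(Om/ℚ)) ⊓ MulAction.stabilizer Gal(Om/ℚ) ζ) ?_
      ((h1.inter O.isOpen).inter h2)
    rintro σ ⟨⟨hσK, hσO⟩, hσζ⟩
    refine ⟨hσK, ?_⟩
    have h3 : σ ζ = ζ := hσζ
    have h4 : hζ.autToPow ℚ σ = 1 := by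
      apply Units.ext
      rw [chi hζ σ 1, Nat.cast_one, Units.val_one]
      intro z hz
      obtain ⟨i, -, rfl⟩ := hζ.eq_pow_of_pow_eq_one hz
      rw [map_pow, h3, pow_one]
    rw [h4, hO σ hσK hσO, ofAdd_zero]
    exact Γ.one_mem
  have hHc : IsClosed (H : Set Gal(Om/ℚ)) := Subgroup.isClosed_of_isOpen _ hHo
  have hE : (IntermediateField.fixedField H).fixingSubgroup = H :=
    InfiniteGalois.fixingSubgroup_fixedField (k := ℚ) (K := Om) ⟨H, hHc⟩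
  refine ⟨IntermediateField.fixedField H, m, (t : ZMod m).val, ?_, ?_, hm0, hmB, hmM,
    ZMod.val_coe_unit_coprime t, hmP, ?_, ?_, ?_⟩
  · refine (InfiniteGalois.isOpen_iff_finite _).1 ?_
    have h1 : ((IntermediateField.fixedField H).fixingSubgroup : Set Gal(Om/ℚ)) = H := by rw [hE]
    change IsOpen ((IntermediateField.fixedField H).fixingSubgroup : Set Gal(Om/ℚ))
    rw [h1]
    exact hHo
  · rw [IntermediateField.le_iff_le]
    exact fun σ hσ => hσ.1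
  · -- trivial action
    intro σ hσ hz
    rw [hE, hHmem] at hσ
    have h1 : hζ.autToPow ℚ σ = 1 := by
      apply Units.ext
      rw [chi hζ σ 1, Nat.cast_one, Units.val_one]
      intro z hz'
      rw [hz z hz', pow_one]
    rw [h1] at hσ
    obtain ⟨i, j, hij⟩ := Subgroup.mem_closure_pair.1 hσ.2
    have h2 : t ^ i * u ^ j = 1 := congrArg Prod.snd hij
    have h3 : Multiplicative.ofAdd (1 : ZMod p) ^ i * Multiplicative.ofAdd (g σ₀) ^ j =
      Multiplicative.ofAdd (g σ) := congrArg Prod.fst hij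
    obtain ⟨hi, hj⟩ := htu i j h2
    rw [← ofAdd_zsmul, ← ofAdd_zsmul, ← ofAdd_add] at h3
    have h4 := Multiplicative.ofAdd.injective h3
    rw [zsmul_eq_mul, zsmul_eq_mul, (ZMod.intCast_zmod_eq_zero_iff_dvd i p).2 hi,
      (ZMod.intCast_zmod_eq_zero_iff_dvd j p).2 hj, zero_mul, zero_mul, add_zero] at h4
    exact h4.symm
  · -- the Frobenius element
    refine ⟨σ₀, ?_, hσ₀⟩
    rw [hE, hHmem]
    refine ⟨hσ₀.1, ?_⟩
    have h1 : hζ.autToPow ℚ σ₀ = u := by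
      apply Units.ext
      rw [chi hζ σ₀ _ (hFrM K P hP σ₀ hσ₀ m hmP), hu]
    rw [h1]
    exact Subgroup.subset_closure (Or.inr rfl)
  · intro σ hσ hg1 hz
    rw [hE, hHmem]
    refine ⟨hσ, ?_⟩
    have h1 : hζ.autToPow ℚ σ = t := by
      apply Units.ext
      rw [chi hζ σ _ hz, ZMod.natCast_zmod_val]
    rw [h1, hg1]
    exact Subgroup.subset_closure (Or.inl rfl)

end Pool.Agent.FW
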