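import Pool.Agent.Lib.FW.SpecR4
import Pool.Agent.Lib.MuZ.Tot
import Pool.Agent.Lib.MuZ.Inst

/-!
# FW, part R4, module R4I: inertia and roots of unity
-/

open scoped Pointwise nonZeroDivisors

noncomputable section

namespace Pool.Agent.FW

open Pool.Agent.MuZ NumberField IsDedekindDomain

/-- Lifting of one automorphism of the `m`-th roots of unity. -/
private theorem R4I_lift (m : ℕ) (hm : 0 < m) (a : ℕ) (ha : a.Coprime m) :
    ∃ σ : Gal(Om/ℚ), ∀ z : Om, z ^ m = 1 → σ z = z ^ a := by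
  have : NeZero m := ⟨hm.ne'⟩
  obtain ⟨ζ, hζ⟩ := HasEnoughRootsOfUnity.exists_primitiveRoot Om m
  have hζb : IsPrimitiveRoot (ζ ^ a) m := hζ.pow_of_coprime a ha
  have h1 : minpoly ℚ ζ = minpoly ℚ (ζ ^ a) := by
    rw [← Polynomial.cyclotomic_eq_minpoly_rat hζ hm, ← Polynomial.cyclotomic_eq_minpoly_rat hζb hm]
  obtain ⟨σ, hσ⟩ := (Normal.minpoly_eq_iff_mem_orbit (F := ℚ) (E := Om)).1 h1.symm
  have hσ' : σ ζ = ζ ^ a := hσ
  refine ⟨σ, fun z hz => ?_⟩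
  obtain ⟨i, -, rfl⟩ := hζ.eq_pow_of_pow_eq_one hz
  rw [map_pow, hσ', ← pow_mul, ← pow_mul, mul_comm]

/-- Splitting of roots of unity of coprime orders. -/
private theorem R4I_split (m n : ℕ) (h : m.Coprime n) (z : Om) (hz : z ^ (m * n) = 1) :
    ∃ z1 z2 : Om, z1 ^ m = 1 ∧ z2 ^ n = 1 ∧ z = z1 * z2 := by
  obtain ⟨c1, h11, h12⟩ := Nat.chineseRemainder h 1 0
  obtain ⟨c2, h21, h22⟩ := Nat.chineseRemainder h 0 1
  refine ⟨z ^ c1, z ^ c2, ?_, ?_, ?_⟩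
  · obtain ⟨k, hk⟩ := (Nat.modEq_zero_iff_dvd).1 h12
    rw [hk, ← pow_mul]
    have : n * k * m = m * n * k := by ring
    rw [this, pow_mul, hz, one_pow]
  · obtain ⟨k, hk⟩ := (Nat.modEq_zero_iff_dvd).1 h21
    rw [hk, ← pow_mul]
    have : m * k * n = m * n * k := by ring
    rw [this, pow_mul, hz, one_pow]
  · have h1 : c1 + c2 ≡ 1 [MOD m * n] := by
      rw [← Nat.modEq_and_modEq_iff_modEq_mul h]
      exact ⟨by simpa using h11.add h21, by simpa using h12.add h22⟩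
    rw [← pow_add, pow_eq_pow_of_modEq h1 hz, pow_one]

/-- The algebraic integers of `Cy n` are the polynomials in `ζ`. -/
private theorem R4I_gen (n : ℕ) (hn : 0 < n) (hc : IsCyclotomicExtension {n} ℚ (Cy n)) (ζ : Om)
    (hζ : IsPrimitiveRoot ζ n) (x : Om) (hx : x ∈ Cy n) (hi : IsIntegral ℤ x) :
    ∃ f : Polynomial ℤ, Polynomial.aeval ζ f = x := by
  have : NeZero n := ⟨hn.ne'⟩
  have hm : ζ ∈ Cy n := IntermediateField.subset_adjoin ℚ _ hζ.pow_eq_one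
  have hz' : IsPrimitiveRoot (⟨ζ, hm⟩ : Cy n) n := by
    apply IsPrimitiveRoot.of_map_of_injective (f := (Cy n).val)
    · exact hζ
    · exact (Cy n).val.injective
  have hI := IsCyclotomicExtension.Rat.isIntegralClosure_adjoin_singleton hz'
  have h1 : IsIntegral ℤ (⟨x, hx⟩ : Cy n) := by
    rw [← isIntegral_algebraMap_iff (B := Om)
      (show Function.Injective (algebraMap (Cy n) Om) from Subtype.val_injective)]
    exact hi
  obtain ⟨y, hy⟩ := hI.isIntegral_iff.mp h1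
  have h2 : x = ((y : Cy n) : Om) := congrArg Subtype.val hy.symm
  obtain ⟨f, hf⟩ := tot_adj _ _ y.2
  refine ⟨f, ?_⟩
  rw [h2, ← hf]
  exact Polynomial.aeval_algebraMap_apply Om (⟨ζ, hm⟩ : Cy n) f

private theorem R4I_smul (s : Gal(Om/ℚ)) (x : ZZ) (f : Polynomial ℤ) :
    s • (Polynomial.aeval x f) = Polynomial.aeval (s • x) f := by
  have h := Polynomial.hom_eval₂ f (algebraMap ℤ ZZ)
    (MulSemiringAction.toRingHom Gal(Om/ℚ) ZZ s) x
  have h1 : (MulSemiringAction.toRingHom Gal(Om/ℚ) ZZ s).comp (algebraMap ℤ ZZ) =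
      algebraMap ℤ ZZ := RingHom.ext_int _ _
  rw [h1] at h
  exact h

private theorem R4I_dvd (x y : ZZ) (f : Polynomial ℤ) :
    x - y ∣ Polynomial.aeval x f - Polynomial.aeval y f := by
  have h3 := Polynomial.sub_dvd_eval_sub x y (f.map (algebraMap ℤ ZZ))
  rw [Polynomial.eval_map, Polynomial.eval_map] at h3
  exact h3

theorem tR4I : S_R4I := by
  intro hIne hECy r m' e a hr hm' hrm' hra P hP hrP
  obtain ⟨hE1, hE2, hE3, hE4, -⟩ := hECy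
  have hre : 0 < r ^ e := pow_pos hr.pos e
  have hn : 0 < m' * r ^ e := Nat.mul_pos hm' hre
  have hco : (m').Coprime (r ^ e) :=
    (Nat.Coprime.pow_left e ((Nat.Prime.coprime_iff_not_dvd hr).2 hrm')).symm
  have hac : a.Coprime (r ^ e) :=
    (Nat.Coprime.pow_left e ((Nat.Prime.coprime_iff_not_dvd hr).2 hra)).symm
  obtain ⟨c, hc1, hc2⟩ := Nat.chineseRemainder hco 1 a
  have hcn : c.Coprime (m' * r ^ e) := by
    refine Nat.Coprime.mul_right ?_ ?_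
    · have h := hc1.gcd_eq
      unfold Nat.Coprime
      rw [h, Nat.gcd_one_left]
    · have h := hc2.gcd_eq
      unfold Nat.Coprime at hac ⊢
      rw [h, hac]
  obtain ⟨s, hs⟩ := R4I_lift _ hn c hcn
  have hs1 : ∀ z : Om, z ^ m' = 1 → s z = z := by
    intro z hz
    rw [hs z (by rw [pow_mul, hz, one_pow]), pow_eq_pow_of_modEq hc1 hz, pow_one]
  have hs2 : ∀ z : Om, z ^ r ^ e = 1 → s z = z ^ a := by
    intro z hz
    rw [hs z (by rw [mul_comm, pow_mul, hz, one_pow])]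
    exact pow_eq_pow_of_modEq hc2 hz
  have hP0 : P ≠ ⊥ := by
    rintro rfl
    rw [Ideal.mem_bot] at hrP
    exact hr.ne_zero (by exact_mod_cast hrP)
  have hmem : ∀ z : Om, z ^ (m' * r ^ e) = 1 → z ∈ Cy (m' * r ^ e) := fun z hz =>
    IntermediateField.subset_adjoin ℚ _ hz
  have key : ∀ y : ZZ, (y : Om) ∈ Cy (m' * r ^ e) → s • y - y ∈ P := by
    intro y hy
    have : NeZero (m' * r ^ e) := ⟨hn.ne'⟩
    obtain ⟨ζ, hζ⟩ := HasEnoughRootsOfUnity.exists_primitiveRoot Om (m' * r ^ e)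
    obtain ⟨z1, z2, hz1, hz2, hz⟩ := R4I_split m' (r ^ e) hco ζ hζ.pow_eq_one
    obtain ⟨f, hf⟩ := R4I_gen _ hn (hE1 _ hn).2 ζ hζ (y : Om) hy y.2
    have i1 : IsIntegral ℤ z1 := IsIntegral.of_pow hm' (by rw [hz1]; exact isIntegral_one)
    have i2 : IsIntegral ℤ z2 := IsIntegral.of_pow hre (by rw [hz2]; exact isIntegral_one)
    have e2 : (⟨z2, i2⟩ : ZZ) ^ r ^ e = 1 := Subtype.ext hz2
    have h2 : (⟨z2, i2⟩ : ZZ) - 1 ∈ P := tot_one r e hr P hP hrP _ e2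
    have h3 : (⟨z2, i2⟩ : ZZ) ^ a - ⟨z2, i2⟩ ∈ P := by
      have h4 : (⟨z2, i2⟩ : ZZ) ^ a - 1 ∈ P := by
        have h5 : (⟨z2, i2⟩ : ZZ) - 1 ∣ ⟨z2, i2⟩ ^ a - 1 ^ a := sub_dvd_pow_sub_pow _ _ a
        rw [one_pow] at h5
        exact P.mem_of_dvd h5 h2
      have h6 := P.sub_mem h4 h2
      rwa [sub_sub_sub_cancel_right] at h6
    have hy' : y = Polynomial.aeval ((⟨z1, i1⟩ : ZZ) * ⟨z2, i2⟩) f := by
      apply Subtype.ext
      rw [← hf, hz]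
      exact (Polynomial.aeval_algebraMap_apply Om ((⟨z1, i1⟩ : ZZ) * ⟨z2, i2⟩) f)
    have hsz : s • ((⟨z1, i1⟩ : ZZ) * ⟨z2, i2⟩) = ⟨z1, i1⟩ * ⟨z2, i2⟩ ^ a := by
      apply Subtype.ext
      change s (z1 * z2) = z1 * z2 ^ a
      rw [map_mul, hs1 z1 hz1, hs2 z2 hz2]
    have hsy : s • y = Polynomial.aeval (s • ((⟨z1, i1⟩ : ZZ) * ⟨z2, i2⟩)) f := by
      rw [hy', R4I_smul]
    have h7 : s • ((⟨z1, i1⟩ : ZZ) * ⟨z2, i2⟩) - ⟨z1, i1⟩ * ⟨z2, i2⟩ ∈ P := by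
      rw [hsz, ← mul_sub]
      exact P.mul_mem_left _ h3
    have h8 : s • y - y = Polynomial.aeval (s • ((⟨z1, i1⟩ : ZZ) * ⟨z2, i2⟩)) f -
        Polynomial.aeval ((⟨z1, i1⟩ : ZZ) * ⟨z2, i2⟩) f := by
      rw [hsy, ← hy']
    rw [h8]
    exact P.mem_of_dvd (R4I_dvd _ _ f) h7
  obtain ⟨σ, hσ1, -, hσ3⟩ := hIne (Cy m') (Cy (m' * r ^ e)) (hE1 _ hn).1
    (hE4 _ _ (dvd_mul_right _ _)) P hP hP0 s ((hE2 _ _).2 hs1) (hE3 _ s) key
  refine ⟨σ, hσ1, fun z hz => ?_, fun z hz => ?_⟩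
  · rw [hσ3 z (hmem z (by rw [mul_comm, pow_mul, hz, one_pow])), hs2 z hz]
  · rw [hσ3 z (hmem z (by rw [pow_mul, hz, one_pow])), hs1 z hz]

end Pool.Agent.FW
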