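import Pool.Agent.Lib.FW.SpecR4

/-!
# FW, R4A: independence of an unramified character and of the cyclotomic characters
-/

open scoped Pointwise

noncomputable section

namespace Pool.Agent.FW

open Pool.Agent.MuZ

namespace R4AAux

private theorem prim (m : ℕ) (hm : 0 < m) : ∃ ζ : Om, IsPrimitiveRoot ζ m := by
  have hne : NeZero m := ⟨hm.ne'⟩
  have hne' : NeZero ((m : ℕ) : Om) := ⟨by
    rw [Nat.cast_ne_zero]
    exact hm.ne'⟩
  exact HasEnoughRootsOfUnity.exists_primitiveRoot Om m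

/-- Every automorphism acts on the `m`-th roots of unity as a power prime to `m`. -/
private theorem act (m : ℕ) (hm : 0 < m) (σ : Gal(Om/ℚ)) :
    ∃ s : ℕ, s.Coprime m ∧ ∀ z : Om, z ^ m = 1 → σ z = z ^ s := by
  obtain ⟨ζ, hζ⟩ := prim m hm
  have hne : NeZero m := ⟨hm.ne'⟩
  have hσζ : IsPrimitiveRoot (σ ζ) m := hζ.map_of_injective σ.injective
  obtain ⟨i, -, hi⟩ := hζ.eq_pow_of_pow_eq_one hσζ.pow_eq_one
  refine ⟨i, ?_, fun z hz => ?_⟩
  · rw [← hi] at hσζ
    exact (hζ.pow_iff_coprime hm i).1 hσζ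
  · obtain ⟨j, -, hj⟩ := hζ.eq_pow_of_pow_eq_one hz
    rw [← hj, map_pow, ← hi, ← pow_mul, ← pow_mul, mul_comm]

/-- Splitting of roots of unity of coprime orders. -/
private theorem split (m n : ℕ) (h : m.Coprime n) (z : Om) (hz : z ^ (m * n) = 1) :
    ∃ z1 z2 : Om, z1 ^ m = 1 ∧ z2 ^ n = 1 ∧ z = z1 * z2 := by
  obtain ⟨c1, h11, h12⟩ := Nat.chineseRemainder h 1 0
  obtain ⟨c2, h21, h22⟩ := Nat.chineseRemainder h 0 1
  refine ⟨z ^ c1, z ^ c2, ?_, ?_, ?_⟩
  · obtain ⟨k, hk⟩ := (Nat.modEq_zero_iff_dvd).1 h12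
    rw [hk, ← pow_mul]
    have : n * k * m = m * n * k := by ring
    rw [this, pow_mul, hz, one_pow]
  · obtain ⟨k, hk⟩ := (Nat.modEq_zero_iff_dvd).1 h21
    rw [hk, ← pow_mul]
    have : m * k * n = m * n * k := by ring
    rw [this, pow_mul, hz, one_pow]
  · have h1 : c1 + c2 ≡ 1 [MOD m * n] := by
      rw [← Nat.modEq_and_modEq_iff_modEq_mul h]
      exact ⟨by simpa using h11.add h21, by simpa using h12.add h22⟩
    rw [← pow_add, pow_eq_pow_of_modEq h1 hz, pow_one]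

/-- A prime of `ZZ` above a prime number. -/
private theorem above (r : ℕ) (hr : r.Prime) :
    ∃ P : Ideal ZZ, P.IsPrime ∧ P ≠ ⊥ ∧ (r : ZZ) ∈ P := by
  have hne : Ideal.span {(r : ZZ)} ≠ ⊤ := by
    intro h
    rw [Ideal.span_singleton_eq_top] at h
    obtain ⟨y, hy⟩ := h.exists_right_inv
    have h1 : IsIntegral ℤ (y : Om) := y.2
    have hr0 : (r : Om) ≠ 0 := Nat.cast_ne_zero.2 hr.ne_zero
    have h2 : (y : Om) = algebraMap ℚ Om ((r : ℚ)⁻¹) := by
      have h3 : (r : Om) * (y : Om) = 1 := by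
        have h4 := congrArg (fun u : ZZ => (u : Om)) hy
        simpa using h4
      rw [map_inv₀, map_natCast]
      exact eq_inv_of_mul_eq_one_right h3
    rw [h2] at h1
    have h3 : IsIntegral ℤ ((r : ℚ)⁻¹) :=
      (isIntegral_algebraMap_iff (algebraMap ℚ Om).injective).1 h1
    obtain ⟨c, hc⟩ := IsIntegrallyClosed.isIntegral_iff.1 h3
    have h4 : (c : ℚ) * (r : ℚ) = 1 := by
      have h5 : (c : ℚ) = (r : ℚ)⁻¹ := hc
      rw [h5]
      exact inv_mul_cancel₀ (Nat.cast_ne_zero.2 hr.ne_zero)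
    have h5 : c * (r : ℤ) = 1 := by exact_mod_cast h4
    have h6 : (r : ℤ) ∣ 1 := ⟨c, by rw [mul_comm]; exact h5.symm⟩
    have h7 : r ∣ 1 := by exact_mod_cast h6
    exact hr.one_lt.ne' (Nat.dvd_one.1 h7)
  obtain ⟨P, hPm, hIP⟩ := Ideal.exists_le_maximal _ hne
  have hrP : (r : ZZ) ∈ P := hIP (Ideal.mem_span_singleton_self _)
  refine ⟨P, hPm.isPrime, ?_, hrP⟩
  rintro rfl
  rw [Ideal.mem_bot] at hrP
  have h1 := congrArg (fun u : ZZ => (u : Om)) hrP
  have h2 : (r : Om) = 0 := by simpa using h1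
  exact hr.ne_zero (Nat.cast_eq_zero.1 h2)

end R4AAux

open R4AAux

theorem tR4A : S_R4A := by
  intro hRam hI p hp K hK g hg hg0
  obtain ⟨hgo, hgm, -, hgL⟩ := hg
  obtain ⟨B, hB, hBP⟩ := hRam K inferInstance
  refine ⟨B, hB, ?_⟩
  have hg1 : g 1 = 0 := by
    have h := hgm 1 (one_mem _) 1 (one_mem _)
    rw [mul_one] at h
    simpa using h
  -- the claim
  have key : ∀ m : ℕ, 0 < m → m.Coprime B → ∀ t n : ℕ, t.Coprime m → 0 < n → n.Coprime m →
      ∃ ρ ∈ K.fixingSubgroup, g ρ = 0 ∧ (∀ z : Om, z ^ m = 1 → ρ z = z ^ t) ∧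
        ∀ z : Om, z ^ n = 1 → ρ z = z := by
    intro m
    induction m using Nat.recOnPosPrimePosCoprime with
    | prime_pow r e hr he =>
      intro _ hmB t n ht hn hnm
      have hr1 : r.Coprime B := Nat.Coprime.coprime_dvd_left (dvd_pow_self r he.ne') hmB
      obtain ⟨P, hP, hPb, hrP⟩ := above r hr
      have hBnP : (B : ZZ) ∉ P := by
        intro h
        have h1 : (1 : ZZ) ∈ P := by
          have h2 : IsCoprime (r : ℤ) (B : ℤ) := Nat.isCoprime_iff_coprime.2 hr1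
          obtain ⟨u, v, huv⟩ := h2
          have h3 : ((u : ZZ) * (r : ZZ) + (v : ZZ) * (B : ZZ)) = 1 := by
            have h4 := congrArg (fun w : ℤ => (w : ZZ)) huv
            push_cast at h4
            exact h4
          rw [← h3]
          exact P.add_mem (P.mul_mem_left _ hrP) (P.mul_mem_left _ h)
        exact hP.ne_top ((Ideal.eq_top_iff_one P).2 h1)
      have hrn : ¬ r ∣ n := by
        intro h
        have h1 : r ∣ r ^ e := dvd_pow_self r he.ne'
        have h2 := Nat.dvd_gcd h h1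
        rw [hnm] at h2
        exact hr.one_lt.ne' (Nat.dvd_one.1 h2)
      have hrt : ¬ r ∣ t := by
        intro h
        have h1 : r ∣ r ^ e := dvd_pow_self r he.ne'
        have h2 := Nat.dvd_gcd h h1
        rw [ht] at h2
        exact hr.one_lt.ne' (Nat.dvd_one.1 h2)
      obtain ⟨σ, hσ, hσ1, hσ2⟩ := hI r n e t hr hn hrn hrt P hP hrP
      have hσK : σ ∈ K.fixingSubgroup := hBP P hP hBnP hσ
      exact ⟨σ, hσK, hgL _ ⟨P, hP, hPb, rfl⟩ σ hσ hσK, hσ1, hσ2⟩
    | zero =>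
      intro h
      exact absurd h (lt_irrefl 0)
    | one =>
      intro _ _ t n _ _ _
      refine ⟨1, one_mem _, hg1, fun z hz => ?_, fun z _ => rfl⟩
      rw [pow_one] at hz
      rw [hz, one_pow, map_one]
    | coprime a b ha hb hab iha ihb =>
      intro _ hmB t n ht hn hnm
      have haB : a.Coprime B := Nat.Coprime.coprime_mul_right hmB
      have hbB : b.Coprime B := Nat.Coprime.coprime_mul_left hmB
      have hta : t.Coprime a := Nat.Coprime.coprime_mul_right_right ht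
      have htb : t.Coprime b := Nat.Coprime.coprime_mul_left_right ht
      have hna : n.Coprime a := Nat.Coprime.coprime_mul_right_right hnm
      have hnb : n.Coprime b := Nat.Coprime.coprime_mul_left_right hnm
      obtain ⟨ρa, hρa, hga, hra, hra'⟩ := iha (by omega) haB t (b * n) hta
        (Nat.mul_pos (by omega) hn) (Nat.Coprime.mul_left hab.symm hna)
      obtain ⟨ρb, hρb, hgb, hrb, hrb'⟩ := ihb (by omega) hbB t (a * n) htb
        (Nat.mul_pos (by omega) hn) (Nat.Coprime.mul_left hab hnb)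
      refine ⟨ρa * ρb, mul_mem hρa hρb, ?_, fun z hz => ?_, fun z hz => ?_⟩
      · rw [hgm _ hρa _ hρb, hga, hgb, add_zero]
      · obtain ⟨z1, z2, h1, h2, rfl⟩ := split a b hab z hz
        rw [AlgEquiv.mul_apply, map_mul, hrb' z1 (by rw [pow_mul, h1, one_pow]), hrb z2 h2,
          map_mul, hra z1 h1, hra' (z2 ^ t) (by
            rw [← pow_mul, mul_comm t, mul_assoc, pow_mul, h2, one_pow]), mul_pow]
      · rw [AlgEquiv.mul_apply, hrb' z (by rw [mul_comm, pow_mul, hz, one_pow]),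
          hra' z (by rw [mul_comm, pow_mul, hz, one_pow])]
  -- an element with value `1`
  obtain ⟨σ₁, hσ₁⟩ : ∃ σ, g σ ≠ 0 := by
    by_contra hcon
    push Not at hcon
    exact hg0 (funext hcon)
  have hσ₁K : σ₁ ∈ K.fixingSubgroup := by
    by_contra hcon
    exact hσ₁ (hgo σ₁ hcon)
  have hpow : ∀ k : ℕ, g (σ₁ ^ k) = k * g σ₁ := by
    intro k
    induction k with
    | zero => simp [hg1]
    | succ k ih =>
      rw [pow_succ, hgm _ (pow_mem hσ₁K k) _ hσ₁K, ih]
      push_cast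
      ring
  have hone : g (σ₁ ^ ((g σ₁)⁻¹).val) = 1 := by
    rw [hpow, ZMod.natCast_val, ZMod.cast_id', id, inv_mul_cancel₀ hσ₁]
  set τ := σ₁ ^ ((g σ₁)⁻¹).val with hτ
  have hτK : τ ∈ K.fixingSubgroup := pow_mem hσ₁K _
  intro m t hm hmB ht
  obtain ⟨s, hs, hsa⟩ := act m hm τ
  have hne : NeZero m := ⟨hm.ne'⟩
  obtain ⟨s', hs'⟩ : ∃ s' : ℕ, s * s' ≡ 1 [MOD m] := by
    refine ⟨((s : ZMod m)⁻¹).val, ?_⟩
    rw [← ZMod.natCast_eq_natCast_iff]
    push_cast
    rw [ZMod.natCast_val, ZMod.cast_id', id]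
    exact ZMod.coe_mul_inv_eq_one s hs
  have hs'm : s'.Coprime m := by
    have h1 := hs'.gcd_eq
    rw [Nat.gcd_one_left] at h1
    exact Nat.Coprime.coprime_mul_left h1
  obtain ⟨ρ, hρ, hgρ, hρa, -⟩ := key m hm hmB (t * s') 1 (Nat.Coprime.mul_left ht hs'm) one_pos
    (Nat.coprime_one_left m)
  refine ⟨ρ * τ, mul_mem hρ hτK, ?_, fun z hz => ?_⟩
  · rw [hgm _ hρ _ hτK, hgρ, hone, zero_add]
  · rw [AlgEquiv.mul_apply, hsa z hz, hρa (z ^ s) (by rw [← pow_mul, mul_comm, pow_mul, hz, one_pow]),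
      ← pow_mul]
    apply pow_eq_pow_of_modEq _ hz
    calc s * (t * s') = t * (s * s') := by ring
      _ ≡ t * 1 [MOD m] := Nat.ModEq.mul_left t hs'
      _ = t := mul_one t

end Pool.Agent.FW
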